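import Mathlib
import Pool.Agent.L0h94.CO.Thm
import Pool.Agent.L0h94.CO.Hgt

/-!
# Full rational 2-torsion: the average of `x ^ rank` is bounded in all three orderings

All elliptic curves over `ℚ` with full rational 2-torsion, one for each isomorphism class, ordered by
the conductor, by the absolute value of the minimal discriminant, or by the naive height, with no
further restriction. The average of `x ^ rank` is bounded, for every `x < 4 ^ (1/3) = 1.587...` in the
orderings by conductor and by discriminant, and for `x = 4` in the ordering by height. So the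
average rank and all its moments are bounded and the proportion of the curves of rank at least `r` is
at most `C x ^ (-r)`, in each of the three orderings.
-/

set_option autoImplicit false

namespace Pool.Agent.Results.MP_6073f3_nt.FullTwoTorsionByConductor

/-- the curve `y² = x³ + A x + B` over `ℚ` -/
def E (A B : ℤ) : WeierstrassCurve ℚ := ⟨0, 0, 0, (A : ℚ), (B : ℚ)⟩

/-- `4 A³ + 27 B² ≠ 0` and there is no prime `p` with `p⁴ ∣ A` and `p⁶ ∣ B`. Every elliptic curve over
`ℚ` is isomorphic to `E A B` for exactly one such pair. -/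
def Minimal (A B : ℤ) : Prop :=
  4 * A ^ 3 + 27 * B ^ 2 ≠ 0 ∧ ∀ p : ℕ, p.Prime → ¬ ((p : ℤ) ^ 4 ∣ A ∧ (p : ℤ) ^ 6 ∣ B)

/-- all 2-torsion points are rational: `x³ + A x + B` splits over `ℚ` -/
def FullTwoTorsion (A B : ℤ) : Prop :=
  ∃ r₁ r₂ r₃ : ℚ, ∀ x : ℚ, x ^ 3 + A * x + B = (x - r₁) * (x - r₂) * (x - r₃)

/-- `4 A³ + 27 B²` -/
def Disc (A B : ℤ) : ℤ := 4 * A ^ 3 + 27 * B ^ 2

/-- the prime-to-6 part of the conductor of `E A B`, `(A, B)` minimal: the product over the primes
`p ≥ 5` dividing `4 A³ + 27 B²` of `p` (multiplicative reduction: `p ∤ A`) or `p²` (additive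
reduction: `p ∣ A`) -/
def Cond6 (A B : ℤ) : ℕ :=
  ∏ p ∈ (Disc A B).natAbs.primeFactors.filter (fun p => 5 ≤ p), if (p : ℤ) ∣ A then p ^ 2 else p

/-- the admissible factors: functions with values between `1` and `2 ^ 8 * 3 ^ 5`, for instance the
part of the conductor composed of the primes 2 and 3 -/
def Factor (f : ℤ × ℤ → ℕ) : Prop := ∀ c, 1 ≤ f c ∧ f c ≤ 2 ^ 8 * 3 ^ 5

/-- `f * Cond6`; for a suitable admissible factor `f` this is the conductor -/
def Conductor (f : ℤ × ℤ → ℕ) (c : ℤ × ℤ) : ℕ := f c * Cond6 c.1 c.2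

/-- the absolute value of the minimal discriminant of an elliptic curve `W` over `ℚ`: the smallest
absolute value of the discriminant of a Weierstrass equation `V` with integer coefficients which is
isomorphic to `W` over `ℚ` -/
noncomputable def minDisc (W : WeierstrassCurve ℚ) : ℕ :=
  sInf {n : ℕ | ∃ (V : WeierstrassCurve ℤ) (C : WeierstrassCurve.VariableChange ℚ),
    C • W = V.map (Int.castRingHom ℚ) ∧ n = V.Δ.natAbs}

/-- the ordering by the minimal discriminant -/
noncomputable def Discriminant (c : ℤ × ℤ) : ℕ := minDisc (E c.1 c.2)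

/-- the ordering by the naive height -/
def Height (c : ℤ × ℤ) : ℕ := (max (4 * |c.1| ^ 3) (27 * c.2 ^ 2)).toNat

/-- the isomorphism classes of the elliptic curves over `ℚ` with full rational 2-torsion whose
invariant `I` is at most `X` -/
def Classes (I : ℤ × ℤ → ℕ) (X : ℕ) : Set (ℤ × ℤ) :=
  {c | Minimal c.1 c.2 ∧ FullTwoTorsion c.1 c.2 ∧ I c ≤ X}

/-- the rank of `E A B` over `ℚ`, `c = (A, B)` -/
noncomputable def rank (c : ℤ × ℤ) : ℕ := Module.finrank ℤ (E c.1 c.2).toAffine.Point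

/-- **Theorem.** Elliptic curves over `ℚ` with full rational 2-torsion.
(1) Let `f` be any admissible factor. The number of the classes of conductor at most `X` is finite and
between `c X ^ (2/3)` and `C X ^ (2/3)` for large `X`; the number of the classes of minimal
discriminant (of height) at most `X` is finite and between `c X ^ (1/3)` and `C X ^ (1/3)` for
large `X`.
(2) For every `x > 0` with `x³ < 4` there is `C` such that the sum of `x ^ rank` over the classes of
conductor (minimal discriminant) at most `X` is at most `C` times their number, for all `X` and all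
admissible factors. (3) There is `C` such that the sum of `4 ^ rank` over the classes of height at
most `X` is at most `C` times their number, for all `X`. -/
theorem result :
    ((∀ f, Factor f → ∀ X : ℕ, (Classes (Conductor f) X).Finite) ∧
      (∀ X : ℕ, (Classes Discriminant X).Finite) ∧ (∀ X : ℕ, (Classes Height X).Finite) ∧
      (∃ c C X₀ : ℝ, 0 < c ∧ ∀ f, Factor f → ∀ X : ℕ, X₀ ≤ (X : ℝ) →
        c * (X : ℝ) ^ ((2 : ℝ) / 3) ≤ ((Classes (Conductor f) X).ncard : ℝ) ∧
        ((Classes (Conductor f) X).ncard : ℝ) ≤ C * (X : ℝ) ^ ((2 : ℝ) / 3)) ∧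
      (∃ c C X₀ : ℝ, 0 < c ∧ ∀ X : ℕ, X₀ ≤ (X : ℝ) →
        c * (X : ℝ) ^ ((1 : ℝ) / 3) ≤ ((Classes Discriminant X).ncard : ℝ) ∧
        ((Classes Discriminant X).ncard : ℝ) ≤ C * (X : ℝ) ^ ((1 : ℝ) / 3)) ∧
      (∃ c C X₀ : ℝ, 0 < c ∧ ∀ X : ℕ, X₀ ≤ (X : ℝ) →
        c * (X : ℝ) ^ ((1 : ℝ) / 3) ≤ ((Classes Height X).ncard : ℝ) ∧
        ((Classes Height X).ncard : ℝ) ≤ C * (X : ℝ) ^ ((1 : ℝ) / 3))) ∧
    (∀ x : ℝ, 0 < x → x ^ 3 < 4 → ∃ C : ℝ,
      (∀ f, Factor f → ∀ X : ℕ, ∑ᶠ c ∈ Classes (Conductor f) X, x ^ rank c ≤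
        C * ((Classes (Conductor f) X).ncard : ℝ)) ∧
      (∀ X : ℕ, ∑ᶠ c ∈ Classes Discriminant X, x ^ rank c ≤
        C * ((Classes Discriminant X).ncard : ℝ))) ∧
    ∃ C : ℝ, ∀ X : ℕ, ∑ᶠ c ∈ Classes Height X, (4 : ℝ) ^ rank c ≤
      C * ((Classes Height X).ncard : ℝ) := by
  obtain ⟨d1, d2, d3⟩ := Pool.Agent.L0h94.CO.thmD
  obtain ⟨h1, h2, h3⟩ := Pool.Agent.L0h94.CO.thmH
  refine ⟨⟨?_, d1, h1, Pool.Agent.L0h94.CO.cntC, ?_, ?_⟩, ?_, Pool.Agent.L0h94.CO.hgt4⟩
  · obtain ⟨C, hC⟩ := Pool.Agent.L0h94.CO.thmC one_pos (by norm_num)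
    exact fun f hf X => (hC f hf X).1
  · obtain ⟨c, C, X0, a1, -, a2⟩ := d2
    exact ⟨c, C, X0, a1, a2⟩
  · obtain ⟨c, C, X0, a1, -, a2⟩ := h2
    exact ⟨c, C, X0, a1, a2⟩
  · intro x hx hx3
    obtain ⟨C1, hC1⟩ := Pool.Agent.L0h94.CO.thmC hx hx3
    obtain ⟨C2, hC2⟩ := d3 x hx hx3
    refine ⟨max C1 C2, fun f hf X => ?_, fun X => ?_⟩
    · exact ((hC1 f hf X).2).trans (mul_le_mul_of_nonneg_right (le_max_left _ _)
        (Nat.cast_nonneg _))
    · exact (hC2 X).trans (mul_le_mul_of_nonneg_right (le_max_right _ _) (Nat.cast_nonneg _))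

end Pool.Agent.Results.MP_6073f3_nt.FullTwoTorsionByConductor
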