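import Mathlib
import Pool.Agent.L0h94.RZ.Main2
import Pool.Agent.L0h94.RZ.Fin4
import Pool.Agent.L0h94.RZ.Grf
import Pool.Agent.Y700.ShaVC

/-!
# Full rational 2-torsion: a positive proportion has rank 0, in all three orderings

All elliptic curves over `ℚ` with full rational 2-torsion, one for each isomorphism class, ordered by
the conductor, by the absolute value of the minimal discriminant, or by the naive height, with no
further restriction. In each of the three orderings a positive proportion of the curves has only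
finitely many rational points and a Tate-Shafarevich group without 2-primary part.
-/

set_option autoImplicit false

namespace Pool.Agent.L0h94.Old.FullTwoTorsionRankZero

/-- the curve `y² = x³ + A x + B` over `ℚ` -/
def E (A B : ℤ) : WeierstrassCurve ℚ := ⟨0, 0, 0, (A : ℚ), (B : ℚ)⟩

/-- `4 A³ + 27 B² ≠ 0` and there is no prime `p` with `p⁴ ∣ A` and `p⁶ ∣ B`. Every elliptic curve over
`ℚ` is isomorphic to `E A B` for exactly one such pair. -/
def Minimal (A B : ℤ) : Prop :=
  4 * A ^ 3 + 27 * B ^ 2 ≠ 0 ∧ ∀ p : ℕ, p.Prime → ¬ ((p : ℤ) ^ 4 ∣ A ∧ (p : ℤ) ^ 6 ∣ B)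

/-- all 2-torsion points are rational: `x³ + A x + B` splits over `ℚ` -/
def FullTwoTorsion (A B : ℤ) : Prop :=
  ∃ r₁ r₂ r₃ : ℚ, ∀ x : ℚ, x ^ 3 + A * x + B = (x - r₁) * (x - r₂) * (x - r₃)

/-- `4 A³ + 27 B²` -/
def Disc (A B : ℤ) : ℤ := 4 * A ^ 3 + 27 * B ^ 2

/-- the prime-to-6 part of the conductor of `E A B`, `(A, B)` minimal: the product over the primes
`p ≥ 5` dividing `4 A³ + 27 B²` of `p` (multiplicative reduction: `p ∤ A`) or `p²` (additive
reduction: `p ∣ A`) -/
def Cond6 (A B : ℤ) : ℕ :=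
  ∏ p ∈ (Disc A B).natAbs.primeFactors.filter (fun p => 5 ≤ p), if (p : ℤ) ∣ A then p ^ 2 else p

/-- the admissible factors: functions with values between `1` and `2 ^ 8 * 3 ^ 5`, for instance the
part of the conductor composed of the primes 2 and 3 -/
def Factor (f : ℤ × ℤ → ℕ) : Prop := ∀ c, 1 ≤ f c ∧ f c ≤ 2 ^ 8 * 3 ^ 5

/-- `f * Cond6`; for a suitable admissible factor `f` this is the conductor -/
def Conductor (f : ℤ × ℤ → ℕ) (c : ℤ × ℤ) : ℕ := f c * Cond6 c.1 c.2

/-- the absolute value of the minimal discriminant of an elliptic curve `W` over `ℚ`: the smallest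
absolute value of the discriminant of a Weierstrass equation `V` with integer coefficients which is
isomorphic to `W` over `ℚ` -/
noncomputable def minDisc (W : WeierstrassCurve ℚ) : ℕ :=
  sInf {n : ℕ | ∃ (V : WeierstrassCurve ℤ) (C : WeierstrassCurve.VariableChange ℚ),
    C • W = V.map (Int.castRingHom ℚ) ∧ n = V.Δ.natAbs}

/-- the ordering by the minimal discriminant -/
noncomputable def Discriminant (c : ℤ × ℤ) : ℕ := minDisc (E c.1 c.2)

/-- the ordering by the naive height -/
def Height (c : ℤ × ℤ) : ℕ := (max (4 * |c.1| ^ 3) (27 * c.2 ^ 2)).toNat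

/-- the isomorphism classes of the elliptic curves over `ℚ` with full rational 2-torsion whose
invariant `I` is at most `X` -/
def Classes (I : ℤ × ℤ → ℕ) (X : ℕ) : Set (ℤ × ℤ) :=
  {c | Minimal c.1 c.2 ∧ FullTwoTorsion c.1 c.2 ∧ I c ≤ X}

/-- the rank of `E A B` over `ℚ`, `c = (A, B)` -/
noncomputable def rank (c : ℤ × ℤ) : ℕ := Module.finrank ℤ (E c.1 c.2).toAffine.Point

/-- the Tate-Shafarevich group of `E A B` over `ℚ`, `c = (A, B)`: the kernel of
`H¹(ℚ, E) → ∏ H¹(ℚ_v, E)`, `v` running over the primes and infinity, for continuous cocycles of the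
absolute Galois groups -/
abbrev Sha (c : ℤ × ℤ) : Type := Pool.Agent.TH841.SH.D.Sha (E c.1 c.2)

/-- the group of the rational points is finite (so the rank is 0), and the Tate-Shafarevich group has
no elements of order a power of 2 except 0 -/
def RankZero (c : ℤ × ℤ) : Prop :=
  Finite (E c.1 c.2).toAffine.Point ∧ rank c = 0 ∧ ∀ (n : ℕ) (x : Sha c), 2 ^ n • x = 0 → x = 0

/-- **Theorem.** Elliptic curves over `ℚ` with full rational 2-torsion, in each of the three
orderings: the number of the classes with invariant at most `X` is finite, it is at least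
`c X ^ (2/3)` (conductor, any admissible factor) or `c X ^ (1/3)` (discriminant, height) for large
`X`, and for large `X` at least the proportion `c` of them has only finitely many rational points
and trivial 2-primary part of the Tate-Shafarevich group. -/
theorem result : ∃ c X₀ : ℝ, 0 < c ∧
    (∀ f, Factor f → ∀ X : ℕ, X₀ ≤ (X : ℝ) → (Classes (Conductor f) X).Finite ∧
      c * (X : ℝ) ^ ((2 : ℝ) / 3) ≤ ((Classes (Conductor f) X).ncard : ℝ) ∧
      c * ((Classes (Conductor f) X).ncard : ℝ) ≤
        ({t | t ∈ Classes (Conductor f) X ∧ RankZero t}.ncard : ℝ)) ∧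
    (∀ X : ℕ, X₀ ≤ (X : ℝ) → (Classes Discriminant X).Finite ∧
      c * (X : ℝ) ^ ((1 : ℝ) / 3) ≤ ((Classes Discriminant X).ncard : ℝ) ∧
      c * ((Classes Discriminant X).ncard : ℝ) ≤
        ({t | t ∈ Classes Discriminant X ∧ RankZero t}.ncard : ℝ)) ∧
    (∀ X : ℕ, X₀ ≤ (X : ℝ) → (Classes Height X).Finite ∧
      c * (X : ℝ) ^ ((1 : ℝ) / 3) ≤ ((Classes Height X).ncard : ℝ) ∧
      c * ((Classes Height X).ncard : ℝ) ≤
        ({t | t ∈ Classes Height X ∧ RankZero t}.ncard : ℝ)) := by
  classical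
  have hM : Pool.Agent.L0h94.RZ.MainP RankZero := by
    obtain ⟨c, hc, H0, h⟩ := Pool.Agent.L0h94.RZ.m_main2
    refine ⟨c, hc, H0, fun H hH => (h H hH).trans ?_⟩
    refine Nat.cast_le.2 (Finset.card_le_card ?_)
    intro t ht
    obtain ⟨h1, h2⟩ := Finset.mem_filter.1 ht
    obtain ⟨a1, -, -⟩ := Pool.Agent.L0h94.CO.cv_fam h1
    have hD : (E t.1 t.2).Δ ≠ 0 := by
      intro h6
      apply a1.1
      have h4 : (E t.1 t.2).Δ = -16 * ((4 * t.1 ^ 3 + 27 * t.2 ^ 2 : ℤ) : ℚ) := by
        simp only [E, WeierstrassCurve.Δ, WeierstrassCurve.b₂, WeierstrassCurve.b₄,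
          WeierstrassCurve.b₆, WeierstrassCurve.b₈]
        push_cast
        ring
      rw [h4] at h6
      have h5 : ((4 * t.1 ^ 3 + 27 * t.2 ^ 2 : ℤ) : ℚ) = 0 := by linarith
      exact_mod_cast h5
    refine Finset.mem_filter.2 ⟨h1, Pool.Agent.L0h94.RZ.finite_of_rank_zero _ hD h2.1, h2.1, ?_⟩
    intro n x hx
    exact Pool.Agent.Y700.sha_two_pow (u := 1) (r := 0) (s := 0) (t := 0)
      (W := E t.1 t.2) (W' := E t.1 t.2)
      ⟨one_ne_zero, by ring, by ring, by ring, by ring, by ring⟩ hD h2.2 n x hx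
  obtain ⟨c0, hc0, X0, k1, k2, k3⟩ := Pool.Agent.L0h94.RZ.fin3P RankZero hM
  obtain ⟨d1, ⟨cd, Cd, Xd, hcd, -, hd⟩, -⟩ := Pool.Agent.L0h94.CO.thmD
  obtain ⟨h1, ⟨ch, Ch, Xh, hch, -, hh⟩, -⟩ := Pool.Agent.L0h94.CO.thmH
  obtain ⟨cc, Cc, Xc, hccp, hcc⟩ := Pool.Agent.L0h94.CO.cntC
  have hfinC : ∀ f, Factor f → ∀ X : ℕ, (Classes (Conductor f) X).Finite := by
    obtain ⟨C, hC⟩ := Pool.Agent.L0h94.CO.thmC one_pos (by norm_num)
    exact fun f hf X => (hC f hf X).1
  refine ⟨min (min c0 cd) (min ch cc), max (max X0 Xd) (max Xh Xc), by positivity, ?_, ?_, ?_⟩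
  · intro f hf X hX
    refine ⟨hfinC f hf X, ?_, ?_⟩
    · refine le_trans (mul_le_mul_of_nonneg_right ((min_le_right _ _).trans (min_le_right _ _))
        (by positivity)) (hcc f hf X ?_).1
      exact ((le_max_right _ _).trans (le_max_right _ _)).trans hX
    · refine le_trans (mul_le_mul_of_nonneg_right ((min_le_left _ _).trans (min_le_left _ _))
        (by positivity)) (k1 f hf X ?_)
      exact ((le_max_left _ _).trans (le_max_left _ _)).trans hX
  · intro X hX
    refine ⟨d1 X, ?_, ?_⟩
    · refine le_trans (mul_le_mul_of_nonneg_right ((min_le_left _ _).trans (min_le_right _ _))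
        (by positivity)) (hd X ?_).1
      exact ((le_max_right _ _).trans (le_max_left _ _)).trans hX
    · refine le_trans (mul_le_mul_of_nonneg_right ((min_le_left _ _).trans (min_le_left _ _))
        (by positivity)) (k2 X ?_)
      exact ((le_max_left _ _).trans (le_max_left _ _)).trans hX
  · intro X hX
    refine ⟨h1 X, ?_, ?_⟩
    · refine le_trans (mul_le_mul_of_nonneg_right ((min_le_right _ _).trans (min_le_left _ _))
        (by positivity)) (hh X ?_).1
      exact ((le_max_left _ _).trans (le_max_right _ _)).trans hX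
    · refine le_trans (mul_le_mul_of_nonneg_right ((min_le_left _ _).trans (min_le_left _ _))
        (by positivity)) (k3 X ?_)
      exact ((le_max_left _ _).trans (le_max_left _ _)).trans hX

end Pool.Agent.L0h94.Old.FullTwoTorsionRankZero
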